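import Mathlib
import Pool.Agent.Run7.h707.TF.Ferm
import Pool.Agent.Run7.h707.TG.FinHS

/-!
# Diagonal cubic curves, threefolds and fivefolds of any rank over an exact positive proportion of ALL the
# extensions `F₀(∛a_1, …, ∛a_r)` of a fixed field `F₀`; the Fermat cubics over `K(∛a_1, …, ∛a_r)`

`K = ℚ(√-3)`, `k = 0, 1, 2`.  We fix

* a diagonal cubic `X : x_0 X_0³ + … + x_{2k+2} X_{2k+2}³ = 0` of dimension `n = 2 k + 1`;
* a field `F₀ = K(∛b_1, …, ∛b_s)` (`s ≥ 0`), the `b_i` independent modulo cubes.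

The `x_i` and `b_i` are cube-free elements of `𝓞 K` that are congruent to third roots of unity modulo `3`
(every element prime to `3` is such an element times a cube).  Let `δ_T = ∏ x_i ∏_{i ∈ T} x_i` for the sets
`T` of `k` indices; the intermediate Jacobian of `X` is isogenous to the product of the curves
`E_{δ_T} : y² + δ_T y = x³`, and `H^n(X)` is the sum of the `H^1(E_{δ_T})(-k)`.  We suppose only that each of the
elements `δ_T b^μ`, `μ ∈ (ℤ/3)^s`, that is a unit times a cube is a cube.  There is NO condition on the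
ranks or on `Ш`: `X` can be any such cubic, of any rank over `F₀`.

For `r ≥ 1` let `a = (a_1, …, a_r)` run through ALL the `r`-tuples of elements of the same type, ordered by
the maximum of the norms, and let `F = F₀(∛a_1, …, ∛a_r)`.  The tuple is in the family, if for all
`T`, `μ` and `ν ≠ 0` the element `δ_T b^μ a^ν` is not exceptional (a unit times a cube, or `1` modulo `3` with
a norm that is `1` modulo `9`) and `b^μ a^ν` is not a unit times a cube.

* The family has a density `κ ∈ 9^{-r} ℤ` among ALL the tuples, given by a finite count of classes modulo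
  `3 √-3` and positive as soon as the family is not empty.
* The tuples of the family such that all the `E_{δ_T b^μ a^ν}(K)`, `ν ≠ 0`, are finite and all the
  `Ш(E_{δ_T b^μ a^ν} / K)[3^∞]` trivial have, among ALL the tuples, exactly the density `κ c₉^N`,
  `c₉ = ∏_{i ≥ 0} (1 - 3^{-(2 i + 1)}) > 0.639`, where `N` is the number of the classes of the triples
  `(T, μ, ν)`, two triples being related if the product of the first twist with the second one or with its
  square is a cube for all `a`.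
* For all these tuples `[F : F₀] = 3^r`; `L(H^n(X / F₀), s)` and `L(H^n(X / F), s)` are entire and have the
  SAME order of vanishing at the centre `s = k + 1`; all the `E_{δ_T}` have the SAME rank over `F₀` and over
  `F`; and if `3^m` kills `Ш(E_{δ_T} / F₀)[3^∞]`, then `3^(max(s, m) + r)` kills `Ш(E_{δ_T} / F)[3^∞]`.
* If in addition every `δ_T b^μ` is a cube or not exceptional, all the `E_{δ_T b^μ}(K)` are finite and the
  `Ш(E_{δ_T b^μ} / K)[3^∞]` trivial (a condition on the fixed objects only), then for all these tuples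
  `L(H^n(X / F), s)` is not zero at the centre, all the `E_{δ_T}(F)` are finite and `3^(s + r)` kills the
  `Ш(E_{δ_T} / F)[3^∞]`.
* For the Fermat cubics and `F₀ = K` the conditions on the fixed objects are true, `N = (3^r - 1) / 2`,
  `κ = 8/9` for `r = 1` and `κ = 16/27` for `r = 2`.

So the rank conjecture for `X` over `F` (in codimension `k + 1`) is equivalent to the one over `F₀`, for an exact
positive proportion of all the extensions, without any condition on the rank.  It is true (with both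
sides zero) for the Fermat cubic curve, threefold and fivefold over a MAJORITY, `8/9 c₉ > 0.568`, of all
the cubic extensions `K(∛a)`, over `16/27 c₉^4 > 0.0988` of all the `K(∛a, ∛a')`, and so on.  With the
theorems of Gross-Zagier and Kolyvagin (for integers `x_i` and `L(E_{δ_T} / ℚ, s)` of order at most one
at `s = 1`) one gets it also for `X` of positive rank over all these `K(∛a_1, …, ∛a_r)`.

The `L`-functions are the complete ones, given by the numbers of points, as in my earlier files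
`MP_6dc9d1_nt/{AllCoefficientsDiagonalCubics, PartlyFixedCoefficients}` and
`MP_b8021b_nt/DiagonalCubicsRadicalFields`, in which the coefficients vary; here the variety is fixed and
only the field varies (density zero for those files), and its rank is arbitrary.  For curves of dimension
one see `MP_32c55d_nt/RankStability`, for the products of the curves `E_c` `MP_1d384c_nt/ProductsOfAnyRank`.

Relation to the conjecture (not formalized): the homologically trivial cycles of codimension `k + 1` of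
`X` over `F`, tensored with `ℚ`, are `J(F) ⊗ ℚ`, `J ~ ∏ E_{δ_T}` (Murre, Bloch and Murre, Bloch and Srinivas
for threefolds; Collino, Paranjape for fivefolds), of dimension the sum of the ranks of the `E_{δ_T}(F)`.

Proof: see the headers of the files `Pool/Agent/Run7/h707/{TC,TD,TE,TF,TG}/*.lean`.  The criterion for the
nonvanishing of `L(E_δ / K, 1)`, the descent and the large sieve are the joint work of the seats named in
the headers of the imported files.
-/

set_option autoImplicit false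

namespace Pool.Agent.Results.MP_0b9e0b_ag.AnyRankAllExtensions

open NumberField IsDedekindDomain WeierstrassCurve
open Pool.Agent.TH841.NF.D (Sha)
open scoped Classical

/-- The curve `E_δ : y² + δ y = x³`. -/
def curve {F : Type} [Field F] (δ : F) : WeierstrassCurve F := ⟨0, 0, δ, 0, 0⟩

/-- The solutions, not all zero, of `∑ a i x i ^ 3 = 0` in the field `F`. -/
def solutions {m : ℕ} {F : Type} [Field F] (a : Fin m → F) : Set (Fin m → F) :=
  {x | x ≠ 0 ∧ ∑ i, a i * x i ^ 3 = 0}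

/-- `δ_T = ∏ a i ∏_{i ∈ T} a i`. -/
def twist {m : ℕ} {R : Type} [CommRing R] (a : Fin m → R) (T : Finset (Fin m)) : R :=
  (∏ i, a i) * ∏ i ∈ T, a i

/-- `b^ν = ∏ b i ^ ν i`, the exponents in `{0, 1, 2}`. -/
def power {r : ℕ} {R : Type} [CommRing R] (b : Fin r → R) (ν : Fin r → ZMod 3) : R :=
  ∏ i, b i ^ (ν i).val

section localData
variable {F : Type} [Field F] [NumberField F]

/-- `A` is the multiset of the eigenvalues of the Frobenius at `v` on `H^n(X)`, for the hypersurface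
`X : ∑ a i x i ^ 3 = 0` of dimension `n = 2 c + 1` over `F`: for every extension `k` of degree `m` of the
residue field of `v` (`f` is the reduction), with `q'` elements, the equation has
`(q' - 1) (1 + q' + ... + q'^n - ∑ α^m)` nonzero solutions in `k`. -/
def IsFrobenius {c : ℕ} (a : Fin (2 * c + 3) → 𝓞 F) (v : HeightOneSpectrum (𝓞 F))
    (A : Multiset ℂ) : Prop :=
  ∀ (k : Type) [Field k] [Finite k] (f : 𝓞 F →+* k) (m : ℕ), RingHom.ker f = v.asIdeal →
    Nat.card k = Ideal.absNorm v.asIdeal ^ m →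
    ((solutions fun i => f (a i)).ncard : ℂ) = (Nat.card k - 1) *
      (∑ i ∈ Finset.range (2 * c + 2), (Nat.card k : ℂ) ^ i - (A.map (fun α => α ^ m)).sum)

/-- `δ` is a cube of `F` times an element `r` of `𝓞 F` prime to `v`; so `E_δ` is isomorphic to `E_r`
over `F` and has good reduction at `v`, if `v` does not divide `3`. -/
def HasGoodReduction (δ : 𝓞 F) (v : HeightOneSpectrum (𝓞 F)) : Prop :=
  ∃ r z z' : 𝓞 F, z ≠ 0 ∧ r ∉ v.asIdeal ∧ δ * z ^ 3 = r * z' ^ 3

/-- For a place `v` not dividing `3`: `B` is the multiset of the eigenvalues of the Frobenius at `v` on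
the invariants of inertia of `H^1(E_δ)(-c)`.  If `δ` is a cube times an element `r` prime to `v`, it
consists of `N(v)^c β` and `N(v)^c conj β`, where `β conj β = N(v)` and the affine curve
`y² + r y = x³` has `N(v) - (β + conj β)` points over the residue field; otherwise it is empty. -/
def IsLocal (δ : 𝓞 F) (v : HeightOneSpectrum (𝓞 F)) (c : ℕ) (B : Multiset ℂ) : Prop :=
  (∃ r z z' : 𝓞 F, z ≠ 0 ∧ r ∉ v.asIdeal ∧ δ * z ^ 3 = r * z' ^ 3 ∧ ∃ β : ℂ,
    β * (starRingEnd ℂ) β = Ideal.absNorm v.asIdeal ∧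
    (Nat.card {P : (𝓞 F ⧸ v.asIdeal) × (𝓞 F ⧸ v.asIdeal) //
      P.2 ^ 2 + Ideal.Quotient.mk v.asIdeal r * P.2 = P.1 ^ 3} : ℂ) =
        Ideal.absNorm v.asIdeal - (β + (starRingEnd ℂ) β) ∧
    B = {(Ideal.absNorm v.asIdeal : ℂ) ^ c * β,
      (Ideal.absNorm v.asIdeal : ℂ) ^ c * (starRingEnd ℂ) β}) ∨
  (¬ HasGoodReduction δ v ∧ B = 0)

/-- `L` is entire and equal to `L(H^n(X_a / F), s)` for `Re s > n / 2 + 1`, for the hypersurface
`X_a : ∑ a i x i ^ 3 = 0` of dimension `n = 2 c + 1` over `F`.  At the places `v` not dividing `3 ∏ a i` the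
`2 (2c+3 choose c)` eigenvalues of the Frobenius have the absolute value `N(v)^(n / 2)`.  At all the
places not dividing `3` the eigenvalues are those of the `H^1(E_{δ_T})(-c)` together, `T` running through
the sets of `c` indices.  At the places dividing `3` the Euler factor is `1`. -/
def IsLFunction {c : ℕ} (a : Fin (2 * c + 3) → 𝓞 F) (L : ℂ → ℂ) : Prop :=
  Differentiable ℂ L ∧ ∃ A : HeightOneSpectrum (𝓞 F) → Multiset ℂ,
    (∀ v, (3 : 𝓞 F) ∉ v.asIdeal → (∀ i, a i ∉ v.asIdeal) → IsFrobenius a v (A v) ∧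
      (A v).card = 2 * (2 * c + 3).choose c ∧
      ∀ α ∈ A v, ‖α‖ ^ 2 = (Ideal.absNorm v.asIdeal : ℝ) ^ (2 * c + 1)) ∧
    (∀ v, (3 : 𝓞 F) ∉ v.asIdeal → ∃ B : Finset (Fin (2 * c + 3)) → Multiset ℂ,
      (∀ T : Finset (Fin (2 * c + 3)), T.card = c → IsLocal (twist a T) v c (B T)) ∧
      A v = ∑ T ∈ (Finset.univ : Finset (Fin (2 * c + 3))).powersetCard c, B T) ∧
    (∀ v, (3 : 𝓞 F) ∈ v.asIdeal → A v = 0) ∧
    ∀ s : ℂ, (2 * c + 1 : ℝ) / 2 + 1 < s.re →
      HasProd (fun v : HeightOneSpectrum (𝓞 F) => ((A v).map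
        (fun α => (1 - α * (Ideal.absNorm v.asIdeal : ℂ) ^ (-s))⁻¹)).prod) (L s)

end localData

variable {K : Type} [Field K] [NumberField K]

/-- The elements `b i` are independent modulo cubes. -/
def Independent {s : ℕ} (b : Fin s → 𝓞 K) : Prop :=
  ∀ μ : Fin s → ZMod 3, μ ≠ 0 → ∀ y : 𝓞 K, y ^ 3 ≠ power b μ

/-- `F₀` is generated over `K` by the cube roots `η i` of the `b i`. -/
def IsBase {s : ℕ} (b : Fin s → 𝓞 K) (F₀ : Type) [Field F₀] [Algebra K F₀] (η : Fin s → F₀) : Prop :=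
  (∀ i, η i ^ 3 = algebraMap K F₀ (b i)) ∧
    ∀ S : Subfield F₀, (∀ x : K, algebraMap K F₀ x ∈ S) → (∀ i, η i ∈ S) → S = ⊤

/-- `F` is generated over `F₀` by the cube roots `θ k` of the `a k`. -/
def IsExtension {r : ℕ} (a : Fin r → 𝓞 K) (F₀ F : Type) [Field F₀] [Field F] [Algebra K F]
    [Algebra F₀ F] (θ : Fin r → F) : Prop :=
  (∀ k, θ k ^ 3 = algebraMap K F (a k)) ∧
    ∀ S : Subfield F, (∀ x : F₀, algebraMap F₀ F x ∈ S) → (∀ k, θ k ∈ S) → S = ⊤

/-- `a` is cube-free and congruent to a third root of unity modulo `3`. -/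
def Admissible (a : 𝓞 K) : Prop :=
  (∀ x : 𝓞 K, x ^ 3 ∣ a → IsUnit x) ∧ ∃ ω : 𝓞 K, ω ^ 3 = 1 ∧ (3 : 𝓞 K) ∣ a - ω

/-- `δ` is a unit times a cube. -/
def UnitTimesCube (δ : 𝓞 K) : Prop := ∃ u x : 𝓞 K, IsUnit u ∧ δ = u * x ^ 3

/-- `δ` is `1` modulo `3` and its norm is `1` modulo `9`. -/
def IsOne (δ : 𝓞 K) : Prop := (3 : 𝓞 K) ∣ δ - 1 ∧ (9 : ℤ) ∣ Algebra.norm ℤ δ - 1

/-- `δ` is a unit times a cube, or `1` modulo `3` with a norm that is `1` modulo `9`. -/
def Exceptional (δ : 𝓞 K) : Prop :=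
  (∃ u x : 𝓞 K, IsUnit u ∧ δ = u * x ^ 3) ∨
    ((3 : 𝓞 K) ∣ δ - 1 ∧ (9 : ℤ) ∣ Algebra.norm ℤ δ - 1)

/-- The fixed objects: the coefficients `x` of the hypersurface and the elements `b`. -/
structure Data (K : Type) [Field K] (k s : ℕ) where
  x : Fin (2 * k + 3) → 𝓞 K
  b : Fin s → 𝓞 K

/-- The twist `δ_T b^μ`. -/
def fixedTwist {k s : ℕ} (D : Data K k s) (T : Finset (Fin (2 * k + 3))) (μ : Fin s → ZMod 3) :
    𝓞 K := twist D.x T * power D.b μ

/-- The elements are admissible, the `b i` independent and every `δ_T b^μ` that is a unit times a cube is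
a cube. -/
def IsData {k s : ℕ} (D : Data K k s) : Prop :=
  (∀ i, Admissible (D.x i)) ∧ (∀ i, Admissible (D.b i)) ∧ Independent D.b ∧
    ∀ T : Finset (Fin (2 * k + 3)), T.card = k → ∀ μ : Fin s → ZMod 3,
      ¬ UnitTimesCube (fixedTwist D T μ) ∨ ∃ y : 𝓞 K, fixedTwist D T μ = y ^ 3

/-- The Fermat hypersurface `∑ X i ^ 3 = 0` of dimension `2 k + 1` and the field `K`. -/
def fermat (K : Type) [Field K] (k : ℕ) : Data K k 0 := ⟨fun _ => 1, Fin.elim0⟩

/-- The triples `(T, μ, ν)`, `T` a set of `k` indices and `ν ≠ 0`. -/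
abbrev Index (k s r : ℕ) : Type :=
  ↥((Finset.univ : Finset (Fin (2 * k + 3))).powersetCard k) × (Fin s → ZMod 3) ×
    {ν : Fin r → ZMod 3 // ν ≠ 0}

/-- Related triples: `ν + e ν' = 0` and `δ_T b^μ (δ_T' b^μ')^e` is a cube for `e = 1` or `e = 2`. -/
def Related {k s r : ℕ} (D : Data K k s) (p p' : Index k s r) : Prop :=
  ∃ e : ℕ, (e = 1 ∨ e = 2) ∧ (∀ i, p.2.2.1 i + e * p'.2.2.1 i = 0) ∧
    ∃ x : 𝓞 K, fixedTwist D p.1 p.2.1 * fixedTwist D p'.1 p'.2.1 ^ e = x ^ 3

/-- `R` is a system of representatives for the related triples. -/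
def IsSystem {k s r : ℕ} (D : Data K k s) (R : Finset (Index k s r)) : Prop :=
  (∀ p ∈ R, ∀ p' ∈ R, p ≠ p' → ¬ Related D p p') ∧ ∀ p, ∃ p' ∈ R, Related D p p'

/-- For `ν ≠ 0` no `δ_T b^μ a^ν` is exceptional and no `b^μ a^ν` is a unit times a cube. -/
def InFamily {k s r : ℕ} (D : Data K k s) (a : Fin r → 𝓞 K) : Prop :=
  (∀ (T : ↥((Finset.univ : Finset (Fin (2 * k + 3))).powersetCard k)) (μ : Fin s → ZMod 3)
    (ν : Fin r → ZMod 3), ν ≠ 0 → ¬ Exceptional (fixedTwist D T.1 μ * power a ν)) ∧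
  ∀ (μ : Fin s → ZMod 3) (ν : Fin r → ZMod 3), ν ≠ 0 → ¬ UnitTimesCube (power D.b μ * power a ν)

/-- `E_δ(K)` is finite and the `3`-primary part of `Ш(E_δ / K)` is trivial. -/
def FiniteAndTrivial (δ : 𝓞 K) : Prop :=
  Finite (curve (δ : K)).toAffine.Point ∧ ∀ (n : ℕ) (x : Sha (curve (δ : K))), 3 ^ n • x = 0 → x = 0

/-- The fixed twists: all the `δ_T b^μ` are cubes or not exceptional, all the `E_{δ_T b^μ}(K)` are finite
and the `Ш(E_{δ_T b^μ} / K)[3^∞]` trivial. -/
def BaseTrivial {k s : ℕ} (D : Data K k s) : Prop :=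
  ∀ (T : ↥((Finset.univ : Finset (Fin (2 * k + 3))).powersetCard k)) (μ : Fin s → ZMod 3),
    (¬ Exceptional (fixedTwist D T.1 μ) ∨ ∃ y : 𝓞 K, fixedTwist D T.1 μ = y ^ 3) ∧
      FiniteAndTrivial (fixedTwist D T.1 μ)

/-- The new twists: for `ν ≠ 0` all the `E_{δ_T b^μ a^ν}(K)` are finite and the
`Ш(E_{δ_T b^μ a^ν} / K)[3^∞]` trivial. -/
def NewTrivial {k s r : ℕ} (D : Data K k s) (a : Fin r → 𝓞 K) : Prop :=
  ∀ (T : ↥((Finset.univ : Finset (Fin (2 * k + 3))).powersetCard k)) (μ : Fin s → ZMod 3)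
    (ν : Fin r → ZMod 3), ν ≠ 0 → FiniteAndTrivial (fixedTwist D T.1 μ * power a ν)

/-- Nine representatives of the classes: `ω (1 + 3 m)`, `ω³ = 1`, `m = 0, 1, 2`. -/
def nine (K : Type) [Field K] : Set (𝓞 K) :=
  {x | ∃ (ω : 𝓞 K) (m : ℕ), ω ^ 3 = 1 ∧ m < 3 ∧ x = ω * (1 + 3 * m)}

/-- The density of the family: the proportion of the tuples of representatives such that for `ν ≠ 0` no
`δ_T b^μ a^ν` is `1` modulo `3` with a norm that is `1` modulo `9`. -/
noncomputable def kappa {k s : ℕ} (D : Data K k s) (r : ℕ) : ℝ :=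
  ({u : Fin r → 𝓞 K | (∀ i, u i ∈ nine K) ∧
    ∀ (T : ↥((Finset.univ : Finset (Fin (2 * k + 3))).powersetCard k)) (μ : Fin s → ZMod 3)
      (ν : Fin r → ZMod 3), ν ≠ 0 → ¬ IsOne (fixedTwist D T.1 μ * power u ν)}.ncard : ℝ) / 9 ^ r

/-- The number of the admissible tuples `a` of norm at most `X` with the property `P`. -/
noncomputable def number {r : ℕ} (X : ℕ) (P : (Fin r → 𝓞 K) → Prop) : ℝ :=
  ({a : Fin r → 𝓞 K | (∀ k, Algebra.norm ℤ (a k) ≤ X ∧ Admissible (a k)) ∧ P a}.ncard : ℝ)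

/-- The property `P` has the density `d` among all the admissible tuples. -/
def HasDensity {r : ℕ} (P : (Fin r → 𝓞 K) → Prop) (d : ℝ) : Prop :=
  Filter.Tendsto (fun X : ℕ => number X P / number X (fun _ : Fin r → 𝓞 K => True)) Filter.atTop
    (nhds d)

/-- The `3`-primary part of `Ш(E_δ / F)` is killed by `3^m`. -/
def ShaKilled (F : Type) [Field F] [NumberField F] [Algebra K F] (m : ℕ) (δ : 𝓞 K) : Prop :=
  ∀ (n : ℕ) (x : Sha (curve (algebraMap K F δ))), 3 ^ n • x = 0 → 3 ^ m • x = 0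

/-- The rank part of the conjecture for `X` over `F` in codimension `k + 1`: the order of `L(H^n(X / F), s)` at
`s = k + 1` is the sum of the ranks of the `E_{δ_T}(F)`. -/
def RankFormula {k s : ℕ} (D : Data K k s) (F : Type) [Field F] [NumberField F] [Algebra K F]
    (L : ℂ → ℂ) : Prop :=
  analyticOrderAt L (k + 1) = ((∑ T ∈ (Finset.univ : Finset (Fin (2 * k + 3))).powersetCard k,
    Module.finrank ℤ (curve (algebraMap K F (twist D.x T : 𝓞 K))).toAffine.Point : ℕ) : ℕ∞)

/-- From `F₀` to `F`: the same order at the centre, the same ranks of the `E_{δ_T}` (as cardinals), the rank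
formula over `F` if and only if over `F₀`, and if `3^m` kills `Ш(E_{δ_T} / F₀)[3^∞]`, then `3^(max(s, m) + r)`
kills `Ш(E_{δ_T} / F)[3^∞]`. -/
def Stable {k s : ℕ} (r : ℕ) (D : Data K k s) (F₀ F : Type) [Field F₀] [NumberField F₀]
    [Algebra K F₀] [Field F] [NumberField F] [Algebra K F] (L₀ L : ℂ → ℂ) : Prop :=
  analyticOrderAt L (k + 1) = analyticOrderAt L₀ (k + 1) ∧
    (RankFormula D F L ↔ RankFormula D F₀ L₀) ∧
    ∀ T : Finset (Fin (2 * k + 3)), T.card = k →
      Module.rank ℤ (curve (algebraMap K F (twist D.x T : 𝓞 K))).toAffine.Point =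
        Module.rank ℤ (curve (algebraMap K F₀ (twist D.x T : 𝓞 K))).toAffine.Point ∧
      ∀ m : ℕ, ShaKilled F₀ m (twist D.x T) → ShaKilled F (max s m + r) (twist D.x T)

/-- `L` is not zero at the centre, the `E_{δ_T}(F)` are finite and their `Ш[3^∞]` are killed by `3^m`. -/
def Vanishing {k s : ℕ} (m : ℕ) (D : Data K k s) (F : Type) [Field F] [NumberField F] [Algebra K F]
    (L : ℂ → ℂ) : Prop :=
  L (k + 1) ≠ 0 ∧ ∀ T : Finset (Fin (2 * k + 3)), T.card = k →
    Finite (curve (algebraMap K F (twist D.x T : 𝓞 K))).toAffine.Point ∧ ShaKilled F m (twist D.x T)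

/-- **Main theorem.** -/
theorem result (K : Type) [Field K] [NumberField K] [IsCyclotomicExtension {3} ℚ K] :
    (0.639 : ℝ) < ∏' i : ℕ, (1 - (1 / 3 : ℝ) ^ (2 * i + 1)) ∧
    (∀ k : ℕ, IsData (fermat K k) ∧ BaseTrivial (fermat K k) ∧
      kappa (fermat K k) 1 = 8 / 9 ∧ kappa (fermat K k) 2 = 16 / 27 ∧
      ∀ (r : ℕ) (R : Finset (Index k 0 r)), IsSystem (fermat K k) R → 2 * R.card = 3 ^ r - 1) ∧
    ∀ (k s : ℕ) (D : Data K k s), k ≤ 2 → IsData D → ∀ r : ℕ,
      ((∃ a : Fin r → 𝓞 K, (∀ i, Admissible (a i)) ∧ InFamily D a) → 0 < kappa D r) ∧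
      (∃ C : ℝ, 0 < C ∧ ∃ X₀ : ℕ, ∀ X : ℕ, X₀ ≤ X →
        C * (X : ℝ) ^ r ≤ number X (fun _ : Fin r → 𝓞 K => True)) ∧
      HasDensity (fun a : Fin r → 𝓞 K => InFamily D a) (kappa D r) ∧
      (∃ R : Finset (Index k s r), IsSystem D R) ∧
      (∀ R : Finset (Index k s r), IsSystem D R →
        HasDensity (fun a : Fin r → 𝓞 K => InFamily D a ∧ NewTrivial D a)
          (kappa D r * (∏' i : ℕ, (1 - (1 / 3 : ℝ) ^ (2 * i + 1))) ^ R.card)) ∧
      ∀ a : Fin r → 𝓞 K, (∀ k, Admissible (a k)) → InFamily D a →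
        (∃ (F₀ : Type) (_ : Field F₀) (_ : NumberField F₀) (_ : Algebra K F₀) (η : Fin s → F₀),
          IsBase D.b F₀ η) ∧
        ∀ (F₀ : Type) [Field F₀] [NumberField F₀] [Algebra K F₀] (η : Fin s → F₀),
          IsBase D.b F₀ η → Module.finrank K F₀ = 3 ^ s ∧
          (∃ (F : Type) (_ : Field F) (_ : NumberField F) (_ : Algebra K F) (_ : Algebra F₀ F)
            (_ : IsScalarTower K F₀ F) (θ : Fin r → F), IsExtension a F₀ F θ) ∧
          ∀ (F : Type) [Field F] [NumberField F] [Algebra K F] [Algebra F₀ F]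
            [IsScalarTower K F₀ F] (θ : Fin r → F), IsExtension a F₀ F θ →
            Module.finrank F₀ F = 3 ^ r ∧
            ∃ L₀ L : ℂ → ℂ, IsLFunction (fun i => algebraMap (𝓞 K) (𝓞 F₀) (D.x i)) L₀ ∧
              IsLFunction (fun i => algebraMap (𝓞 K) (𝓞 F) (D.x i)) L ∧
              (NewTrivial D a → Stable r D F₀ F L₀ L ∧
                (BaseTrivial D → Vanishing s D F₀ L₀ ∧ Vanishing (s + r) D F L)) := by
  have e : ∀ (r X : ℕ), number X (fun _ : Fin r → 𝓞 K => True) =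
      ({a : Fin r → 𝓞 K | ∀ k, Algebra.norm ℤ (a k) ≤ X ∧ Admissible (a k)}.ncard : ℝ) := by
    intro r X
    unfold number
    simp only [and_true]
  refine ⟨Pool.Agent.XLK.t_C9.2.2.2.1, fun k => ?_, fun k s D hk hD r => ?_⟩
  · obtain ⟨⟨j, hj⟩, -⟩ := Pool.Agent.Y455.CTK.jex K
    have h1 : ∀ T : Finset (Fin (2 * k + 3)), twist (fermat K k).x T = 1 := fun T =>
      Run7.h707.TF.dt_one T
    have h2 : ∀ μ : Fin 0 → ZMod 3, power (fermat K k).b μ = 1 := fun μ =>
      Run7.h707.TF.bp_nil _ μ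
    have h3 : ∀ (T : Finset (Fin (2 * k + 3))) (μ : Fin 0 → ZMod 3),
        fixedTwist (fermat K k) T μ = 1 := fun T μ => by
      unfold fixedTwist
      rw [h1, h2, mul_one]
    have hA : Admissible (1 : 𝓞 K) := by
      refine ⟨fun x hx => isUnit_of_dvd_one (dvd_trans (dvd_pow_self x three_ne_zero) hx), 1, ?_, ?_⟩
      · simp
      · simp
    have hne : Nonempty ↥((Finset.univ : Finset (Fin (2 * k + 3))).powersetCard k) := by
      have : ((Finset.univ : Finset (Fin (2 * k + 3))).powersetCard k).Nonempty := by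
        rw [Finset.powersetCard_nonempty, Finset.card_univ, Fintype.card_fin]
        omega
      exact this.to_subtype
    refine ⟨⟨fun _ => hA, fun i => Fin.elim0 i, fun μ hμ => absurd (Subsingleton.elim _ _) hμ,
      fun T _ μ => Or.inr ⟨1, by rw [h3, one_pow]⟩⟩, fun T μ => ⟨Or.inr ⟨1, by rw [h3, one_pow]⟩, ?_⟩,
      ?_, ?_, fun r R hR => ?_⟩
    · rw [h3]
      exact Run7.h707.TF.tri_one j
    · exact (Run7.h707.TF.ferm_one j hj (J₀ := ↥((Finset.univ :
        Finset (Fin (2 * k + 3))).powersetCard k)) (C := fun T => twist (fermat K k).x T.1)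
        (fun T => h1 T.1) (d := (fermat K k).b)).1
    · exact (Run7.h707.TF.ferm_one j hj (J₀ := ↥((Finset.univ :
        Finset (Fin (2 * k + 3))).powersetCard k)) (C := fun T => twist (fermat K k).x T.1)
        (fun T => h1 T.1) (d := (fermat K k).b)).2
    · exact Run7.h707.TF.card_sys (J₀ := ↥((Finset.univ :
        Finset (Fin (2 * k + 3))).powersetCard k)) (C := fun T => twist (fermat K k).x T.1)
        (fun T => h1 T.1) (d := (fermat K k).b) hR.1 hR.2
  obtain ⟨hx, hb, hind, hE⟩ := hD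
  obtain ⟨x, b⟩ := D
  have hex : ∃ R : Finset (Index k s r), IsSystem ⟨x, b⟩ R := Run7.h707.TF.ex_sys
    (Run7.h707.TF.Rx (r := r) (fun T : ↥((Finset.univ : Finset (Fin (2 * k + 3))).powersetCard k) =>
      Pool.Agent.N883.DQ.Dt x T.1) b) Run7.h707.TF.rx_refl
    (Run7.h707.TF.rx_symm (fun T : ↥((Finset.univ :
      Finset (Fin (2 * k + 3))).powersetCard k) => Run7.h707.TF.dt_ne
      (fun i => Run7.h707.TE.ne_of_famO (hx i)) T.1) fun i => Run7.h707.TE.ne_of_famO (hb i))
  obtain ⟨R₀, hR₀⟩ := hex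
  obtain ⟨h0, h1, h2, h3, h4⟩ := Run7.h707.TG.finHS K hk hx hb hind hE R₀ hR₀.1 hR₀.2
  refine ⟨?_, ?_, ?_, ⟨R₀, hR₀⟩, fun R hR => ?_, fun a ha hF => ⟨?_, fun F₀ _ _ _ η hη => ?_⟩⟩
  · rintro ⟨a, ha, haF⟩
    exact h0 ⟨a, ha, haF.1⟩
  · simp only [e]
    exact h1
  · unfold HasDensity
    simp only [e]
    exact h2
  · obtain ⟨-, -, -, h3', -⟩ := Run7.h707.TG.finHS K hk hx hb hind hE R hR.1 hR.2
    unfold HasDensity
    simp only [e]
    exact h3'
  · obtain ⟨F, i1, i2, i3, θ, hθ, hg⟩ := Run7.h707.TE.ex_F fun i => (b i : K)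
    exact ⟨F, i1, i2, i3, θ, hθ, hg⟩
  · have hexF : ∃ (F : Type) (_ : Field F) (_ : NumberField F) (_ : Algebra K F) (_ : Algebra F₀ F)
        (_ : IsScalarTower K F₀ F) (θ : Fin r → F), IsExtension a F₀ F θ := by
      obtain ⟨F, i1, i2, i3, θ, hθ, hg⟩ := Run7.h707.TE.ex_F fun k => algebraMap K F₀ (a k : K)
      let i4 : Algebra K F := ((algebraMap F₀ F).comp (algebraMap K F₀)).toAlgebra
      have i5 : IsScalarTower K F₀ F := IsScalarTower.of_algebraMap_eq fun x => rfl
      exact ⟨F, i1, i2, i4, i3, i5, θ, hθ, hg⟩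
    have hall := h4 a ha hF.1 hF.2 F₀ η hη
    have hfr : Module.finrank K F₀ = 3 ^ s := by
      obtain ⟨F, i1, i2, i3, i4, i5, θ, hθ⟩ := hexF
      exact (hall F θ hθ).1
    refine ⟨hfr, hexF, fun F _ _ _ _ _ θ hθ => ?_⟩
    obtain ⟨-, hd, L₀, L, l1, l2, l3, l4⟩ := hall F θ hθ
    refine ⟨hd, L₀, L, l1, l2, fun hN => ?_⟩
    obtain ⟨h7, h8⟩ := l3 fun T hT μ ν hν => hN ⟨T, Run7.h707.TC.mem_SS.2 hT⟩ μ ν hν
    refine ⟨⟨h7, ?_, h8⟩, fun hB => ?_⟩
    swap
    · obtain ⟨l5, l6⟩ := l4 hB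
      have h9 : L (k + 1) ≠ 0 := by
        have hz : analyticOrderAt L (k + 1) = 0 := by
          rw [h7]
          exact analyticOrderAt_eq_zero.2 (Or.inr l5)
        rcases analyticOrderAt_eq_zero.1 hz with h | h
        · exact absurd (l2.1.analyticAt _) h
        · exact h
      have hG : Run7.h707.TF.GenF K F b a (fun i => algebraMap F₀ F (η i)) θ := by
        refine ⟨fun i => ?_, hθ.1, fun S h1 h2 h3 => ?_⟩
        · rw [← map_pow, hη.1 i, ← IsScalarTower.algebraMap_apply]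
        · refine hθ.2 S (fun y => ?_) h3
          have h4 : S.comap (algebraMap F₀ F) = ⊤ := hη.2 _ (fun z => by
            show algebraMap F₀ F (algebraMap K F₀ z) ∈ S
            rw [← IsScalarTower.algebraMap_apply]
            exact h1 z) fun i => h2 i
          have h5 : y ∈ S.comap (algebraMap F₀ F) := by
            rw [h4]
            exact Subfield.mem_top y
          exact h5
      obtain ⟨-, -, -, -, hX⟩ := Run7.h707.TF.finX K hk hx hb hind
        (fun T hT μ => (hB ⟨T, Run7.h707.TC.mem_SS.2 hT⟩ μ).1) R₀ hR₀.1 hR₀.2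
      obtain ⟨-, L', -, hX'⟩ := hX a ha hF.1 hF.2 F _ θ hG
      refine ⟨⟨l5, l6⟩, h9, (hX' fun T hT μ ν => ?_).2⟩
      by_cases hν : ν = 0
      · have hz : Run7.h707.TE.bp a ν = 1 := by rw [hν, Run7.h707.TF.bp_zero]
        rw [hz, mul_one]
        exact (hB ⟨T, Run7.h707.TC.mem_SS.2 hT⟩ μ).2
      · exact hN ⟨T, Run7.h707.TC.mem_SS.2 hT⟩ μ ν hν
    have hsum : ∑ T ∈ (Finset.univ : Finset (Fin (2 * k + 3))).powersetCard k,
        Module.finrank ℤ (curve (algebraMap K F (twist x T : 𝓞 K))).toAffine.Point =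
        ∑ T ∈ (Finset.univ : Finset (Fin (2 * k + 3))).powersetCard k,
        Module.finrank ℤ (curve (algebraMap K F₀ (twist x T : 𝓞 K))).toAffine.Point := by
      refine Finset.sum_congr rfl fun T hT => ?_
      unfold Module.finrank
      exact congrArg Cardinal.toNat (h8 T (Finset.mem_powersetCard.1 hT).2).1
    unfold RankFormula
    rw [h7, hsum]

end Pool.Agent.Results.MP_0b9e0b_ag.AnyRankAllExtensions
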