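import Pool.Agent.Run7.h908.JP.Cum

/-!
# The conjecture of Beilinson and Bloch for divisors on products of twisted curves over `F_q(t)`

Let `k` be a finite field of odd characteristic with `q` elements and `K = k(t)`. Let `n ≥ 1` and, for
`i = 1, ..., n`, let `f_i` in `k[t][x]` be monic of degree `2 g_i + 1` in `x`, `g_i ≥ 1`, without a term
in `x ^ (2 g_i)`, the coefficient of `x ^ j` of degree at most `2 N_i (2 g_i + 1 - j)` in `t`, `N_i ≥ 1`,
such that the discriminants of the `f_i` are squarefree and pairwise coprime and the reductions of the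
`f_i` at infinity are irreducible. A twist is a squarefree polynomial `D` in `k[t]`, with any leading
coefficient, which is prime to the discriminants; let `C_i` be the curve `D y ^ 2 = f_i(x)` of genus `g_i`
over `K` and `J_i` its Jacobian.

For natural numbers `m_i` let `X` be any smooth projective variety over `K` whose Picard variety is
isogenous to the product of the `J_i ^ (m_i)`; for instance `C_1 ^ (m_1) × ... × C_n ^ (m_n)`. For `i = 1`
the two sides of the conjecture are the rank of the Picard variety, the sum of the `m_i rank J_i(K)`, and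
the order at `s = 1` of the product of the `L(J_i, s) ^ (m_i)`. (This reduction and the theorems of Tate,
Milne, Schneider, Kato and Trihan which relate the second side to the Selmer groups are not formalised.)

Theorem. Fix `k` and the `f_i` and take all the twists `D` of degree at most `M`, in the limit `M → ∞`.
1. For every twist `J_i(K)` has no points of order two, and for all `l` the Selmer group
   `Sel(J_i, 2 ^ l)` has at most `2 ^ (l d_i)` elements, `2 ^ (d_i) = #Sel(J_i, 2)`. So the dimension of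
   `CH^1(X)_0` is at most `∑ m_i d_i`, for EVERY twist.
2. The mean of `∑ m_i d_i` over the twists is `1.2645... ∑ m_i`, and `(d_1, ..., d_n)` has the limit law
   `α(d_1) ⋯ α(d_n)` with all means of functions of exponential growth. The parities of `d_1, ..., d_n`,
   which are those of the orders of `L(J_i, s)` at `s = 1`, are independent and equidistributed.
3. For at least `0.2097 ^ n` of ALL the twists of degree at most `M`, `M` large, all the groups
   `Sel(J_i, 2 ^ l)` are zero, `J_i(K)` is uniquely divisible by two, and the 2-primary part of the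
   Tate-Shafarevich group of `J_i` is zero. So both sides of the conjecture are zero, for all the
   varieties `X` above.
4. If the characteristic is larger than `2 g + 1`, then for every nonzero `Δ` a positive proportion of
   all `f` of genus `g` and height `2 N`, `N` to infinity, is in the family with discriminant prime to `Δ`.

The proof is project JPL (helper784: the joint law, with parts by helpers 56, 160, 303, 518, 704, 803,
908, 957; projects PRL (helper286) and TG (helper784)), the bound for `Sel(J, 2 ^ l)` of helper886, and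
the summation over the degrees of helper716.
-/

set_option autoImplicit false
set_option linter.all false

namespace Pool.Agent.Results.MP_0b9e0b_ag.ProductsOfTwistedCurves

open Polynomial Filter IsDedekindDomain
open scoped Classical Topology
open Pool.Agent.N874.Jac (J mapJ Cochain Cocycle Coboundary power TrivialAtPrimes TrivialOver
  UniquelyTwoDivisible ShaTwoTrivial)
open Pool.Agent.TH115.GD (CompInf)
open Run7.h784.JPH (discriminant HasHeight atInfinity InFamily twist Twists weight alpha)

section groups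

variable (k : Type) [Field k] {K : Type} [Field K] [Algebra k[X] K] [IsFractionRing k[X] K] (F : K[X])

/-- The continuous cocycles of the absolute Galois group of `K = k(t)` with values in `J[n]`, `J` the
Jacobian of `y ^ 2 = F(x)` (written multiplicatively), whose class in `H ^ 1 (K_v, J)` is zero for all the
places `v` of `K`. -/
structure SelmerCocycle (n : ℕ) (c : Cochain F) : Prop where
  cocycle : Cocycle c
  torsion : ∀ σ, c σ ^ n = 1
  finite : TrivialAtPrimes k[X] c
  infinite : TrivialOver (CompInf k K) c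

/-- The Selmer group `Sel(J, n)` in `H ^ 1 (K, J[n])` (as a set): the classes of these cocycles. -/
def Selmer (n : ℕ) : Type :=
  Quot fun c c' : {c : Cochain F // SelmerCocycle k F n c} =>
    ∃ P : J F (SeparableClosure K), P ^ n = 1 ∧ ∀ σ, c.1 σ = c'.1 σ * (mapJ F σ.toAlgHom P / P)

/-- The binary logarithm of the order of `Sel(J, 2)`. -/
noncomputable def dim : ℕ := Nat.log 2 (Nat.card (Selmer k F 2))

/-- `J(K)` has no points of order two and, for all `l`, the group `Sel(J, 2 ^ l)` is finite with at most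
`2 ^ (l d)` elements, `2 ^ d = #Sel(J, 2)`. -/
structure Bounded : Prop where
  torsion : ∀ P : J F K, P ^ 2 = 1 → P = 1
  order : Nat.card (Selmer k F 2) = 2 ^ dim k F
  finite : ∀ l : ℕ, Finite (Selmer k F (2 ^ l))
  le : ∀ l : ℕ, Nat.card (Selmer k F (2 ^ l)) ≤ 2 ^ (l * dim k F)

/-- All the groups are zero: `J(K)` is uniquely divisible by two; the 2-primary part of the group of the
classes in `H ^ 1 (K, J)` which are zero over the completions at all maximal ideals of `k[t]` is zero; and
every continuous cocycle with values in `J[2 ^ l]` whose class in `H ^ 1 (K, J)` is zero over these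
completions is the coboundary of an element of `J[2 ^ l]`, for all `l`. -/
structure Zero : Prop where
  points : UniquelyTwoDivisible F
  sha : ShaTwoTrivial F k[X]
  selmer : ∀ (l : ℕ) (c : Cochain F), Cocycle c → (∀ σ, c σ ^ 2 ^ l = 1) → TrivialAtPrimes k[X] c →
    ∃ P : J F (SeparableClosure K), P ^ 2 ^ l = 1 ∧ ∀ σ, c σ = mapJ F σ.toAlgHom P / P

end groups

section statements

variable {k : Type} [Field k] (K : Type) [Field K] [Algebra k[X] K] [IsFractionRing k[X] K] {n : ℕ}

/-- The equations `y ^ 2 = F_i(x)` of the `n` curves `C_i : D y ^ 2 = f_i(x)` over `K = k(t)`. -/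
noncomputable def curves (f : Fin n → k[X][X]) (D : k[X]) : Fin n → K[X] := fun i => twist K (f i) D

/-- The numbers `d_i(D)`, `#Sel(J_i, 2) = 2 ^ (d_i(D))`. -/
noncomputable def dims (f : Fin n → k[X][X]) (D : k[X]) (i : Fin n) : ℕ := dim k (curves K f D i)

variable (g : Fin n → ℕ) (f : Fin n → k[X][X])

/-- `D` is squarefree and prime to all the discriminants. -/
structure IsTwist (D : k[X]) : Prop where
  squarefree : Squarefree D
  coprime : ∀ i, IsCoprime D (discriminant (g i) (f i))

/-- The twists of degree at most `M`. -/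
def UpTo (M : ℕ) : Set k[X] := {D | IsTwist g f D ∧ D.natDegree ≤ M}

/-- The mean of `F` over the twists of degree at most `M` tends to `l`. -/
def MeanTendsTo (F : k[X] → ℝ) (l : ℝ) : Prop :=
  Tendsto (fun M => (∑ᶠ D ∈ UpTo g f M, F D) / ((UpTo g f M).ncard : ℝ)) atTop (𝓝 l)

/-- The proportion of the twists of degree at most `M` with the property `P` tends to `l`. -/
def HasProportion (P : k[X] → Prop) (l : ℝ) : Prop :=
  Tendsto (fun M => (({D ∈ UpTo g f M | P D} : Set k[X]).ncard : ℝ) / ((UpTo g f M).ncard : ℝ))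
    atTop (𝓝 l)

/-- The means of the functions of exponential growth of `d(D)`. -/
def HasMeans : Prop :=
  ∀ φ : (Fin n → ℕ) → ℝ, (∃ C y : ℝ, ∀ d, |φ d| ≤ C * y ^ (∑ i, d i)) →
    MeanTendsTo g f (fun D => φ (dims K f D)) (∑' d : Fin n → ℕ, φ d * ∏ i, alpha (d i))

/-- The theorem for `f_1, ..., f_n`. -/
structure Statement : Prop where
  many : ∃ c : ℝ, 0 < c ∧ ∀ᶠ M : ℕ in atTop,
    c * (Nat.card k : ℝ) ^ M ≤ ((UpTo g f M).ncard : ℝ)
  each : ∀ D, IsTwist g f D → ∀ i, Bounded k (curves K f D i)
  often : ∀ᶠ M : ℕ in atTop, (0.2097 : ℝ) ^ n * ((UpTo g f M).ncard : ℝ) ≤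
    (({D ∈ UpTo g f M | ∀ i, Zero k (curves K f D i)} : Set k[X]).ncard : ℝ)
  means : HasMeans K g f
  law : ∀ d : Fin n → ℕ, HasProportion g f (fun D => dims K f D = d) (∏ i, alpha (d i))
  parity : ∀ e : Fin n → ZMod 2, HasProportion g f (fun D => ∀ i, (dims K f D i : ZMod 2) = e i)
    ((1 / 2 : ℝ) ^ n)
  average : ∀ m : Fin n → ℕ, MeanTendsTo g f (fun D => ((∑ i, m i * dims K f D i : ℕ) : ℝ))
    (((∑ i, m i : ℕ) : ℝ) * ∑' d : ℕ, (d : ℝ) * alpha d)

end statements

/-- A positive proportion of the polynomials `f` of genus `g` and height `2 N` is in the family and has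
discriminant prime to `Δ`, as `N → ∞`. -/
def PositiveProportion (g : ℕ) {k : Type} [Field k] (Δ : k[X]) : Prop :=
  ∃ c : ℝ, 0 < c ∧ ∀ᶠ N : ℕ in atTop, 0 < {f : k[X][X] | HasHeight g (2 * N) f}.ncard ∧
    c * ({f : k[X][X] | HasHeight g (2 * N) f}.ncard : ℝ) ≤
      ({f : k[X][X] | InFamily g N f ∧ IsCoprime Δ (discriminant g f)}.ncard : ℝ)

section lemmas

variable {k : Type} [Field k] [Finite k] {n : ℕ} {g : Fin n → ℕ} {f : Fin n → k[X][X]}

theorem upTo_eq (M : ℕ) : UpTo g f M = Run7.h908.JP.Cum.UpTo g f M :=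
  Set.ext fun D => ⟨fun h => ⟨⟨h.1.1, h.1.2⟩, h.2⟩, fun h => ⟨⟨h.1.1, h.1.2⟩, h.2⟩⟩

theorem upTo_fin (M : ℕ) : (UpTo g f M).Finite := by
  rw [upTo_eq]
  exact Run7.h908.JP.Cum.upTo_fin M

/-- Linear combinations of means. -/
theorem mean_lin (F : Fin n → k[X] → ℝ) (m : Fin n → ℝ) (l : ℝ) (h : ∀ i, MeanTendsTo g f (F i) l) :
    MeanTendsTo g f (fun D => ∑ i, m i * F i D) ((∑ i, m i) * l) := by
  have h1 : Tendsto (fun M => ∑ i : Fin n, m i * ((∑ᶠ D ∈ UpTo g f M, F i D) /
      ((UpTo g f M).ncard : ℝ))) atTop (𝓝 (∑ i : Fin n, m i * l)) :=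
    tendsto_finsetSum _ fun i _ => (h i).const_mul (m i)
  rw [← Finset.sum_mul] at h1
  refine h1.congr fun M => ?_
  have hfin : (UpTo g f M).Finite := upTo_fin M
  have h2 : ∀ i, m i * ((∑ᶠ D ∈ UpTo g f M, F i D) / ((UpTo g f M).ncard : ℝ)) =
      (∑ D ∈ hfin.toFinset, m i * F i D) / ((UpTo g f M).ncard : ℝ) := fun i => by
    rw [finsum_mem_eq_finite_toFinset_sum _ hfin, ← Finset.mul_sum, mul_div_assoc]
  rw [Finset.sum_congr rfl fun i _ => h2 i, ← Finset.sum_div]
  congr 1
  rw [finsum_mem_eq_finite_toFinset_sum _ hfin, Finset.sum_comm]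

/-- Proportions as means. -/
theorem proportion_of {P : k[X] → Prop} {l : ℝ}
    (h : MeanTendsTo g f (fun D => if P D then (1 : ℝ) else 0) l) : HasProportion g f P l := by
  refine Tendsto.congr (fun M => ?_) h
  rw [Run7.h908.JP.Cum.ncard_sep (upTo_fin M)]

theorem alpha_zero : (0.2097 : ℝ) < alpha 0 := by
  obtain ⟨n1, n2, n3, n4, n5⟩ := Run7.h160.PL.num
  have h1 := abs_lt.1 n4
  have h2 : alpha 0 = Run7.h286.PL.wt 0 / ∑' j, Run7.h286.PL.wt j := rfl
  have h3 : Run7.h286.PL.wt 0 = 1 := by
    unfold Run7.h286.PL.wt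
    simp
  rw [h2, h3, lt_div_iff₀ (by linarith)]
  nlinarith [h1.2]

end lemmas

/-- Let `k` be a finite field of odd characteristic with `q` elements, `K = k(t)`.
(I) Let `f_1, ..., f_n` be polynomials of the families of genus `g_i ≥ 1` and height `2 N_i`, `N_i ≥ 1`
(monic of degree `2 g_i + 1` over `k[t]` without next term, squarefree discriminant, irreducible
reduction at infinity) with pairwise coprime discriminants. Take all the twists `D` (squarefree, prime to
the discriminants) of degree at most `M`, `M → ∞`, and let `J_i` be the Jacobian of `D y ^ 2 = f_i(x)`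
over `K`. Then
(many) there are at least `c q ^ M` of them, `c > 0`;
(each) `J_i(K)` has no points of order two, `#Sel(J_i, 2) = 2 ^ (d_i)`, and `Sel(J_i, 2 ^ l)` has at most
`2 ^ (l d_i)` elements for all `l`, for every twist;
(often) for large `M` for at least `0.2097 ^ n` of the twists all the groups `Sel(J_i, 2 ^ l)` are zero,
`J_i(K)` is uniquely divisible by two and the 2-primary part of the Tate-Shafarevich group of `J_i` is
zero, for all `i`;
(means) the mean of every function `φ` of exponential growth of `(d_1, ..., d_n)` tends to its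
expectation for the product of the laws of Poonen and Rains;
(law) in particular the proportion of the `D` with a given vector tends to `α(d_1) ⋯ α(d_n)`;
(parity) every vector of parities of the `d_i` has the limit proportion `2 ^ (- n)`;
(average) for all multiplicities `m_i` the mean of `∑ m_i d_i` tends to `∑ m_i` times the expectation of
the law.
(II) This expectation is `1.2645` up to `0.0001`.
(III) If the characteristic is larger than `2 g + 1`, `g ≥ 1` and `Δ ≠ 0`, a positive proportion of
all `f` of genus `g` and height `2 N` is in the family and has discriminant prime to `Δ`. -/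
theorem result (k : Type) [Field k] [Finite k] (h2 : (2 : k) ≠ 0)
    (K : Type) [Field K] [Algebra k[X] K] [IsFractionRing k[X] K] :
    (∀ (n : ℕ), 1 ≤ n → ∀ (g N : Fin n → ℕ), (∀ i, 1 ≤ g i) → (∀ i, 1 ≤ N i) →
      ∀ f : Fin n → k[X][X], (∀ i, InFamily (g i) (N i) (f i)) →
      (∀ i j, i ≠ j → IsCoprime (discriminant (g i) (f i)) (discriminant (g j) (f j))) →
      Statement K g f) ∧
    |∑' d : ℕ, (d : ℝ) * alpha d - 1.2645| < 0.0001 ∧
    ∀ g : ℕ, 1 ≤ g → ((2 * g + 1).factorial : k) ≠ 0 → ∀ Δ : k[X], Δ ≠ 0 →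
      PositiveProportion g Δ := by
  refine ⟨fun n hn g N hg hN f hf hc => ?_, Run7.h908.JP.Fib.mean_value,
    fun g hg hp Δ hΔ => Run7.h908.JP.Fib.many g hg hp Δ hΔ⟩
  haveI : Nonempty (Fin n) := ⟨⟨0, hn⟩⟩
  have hF : Run7.h784.JP.JF g N (fun i => atInfinity (g i) (2 * N i) (f i)) f :=
    ⟨h2, fun i => (hf i).fm (hg i) (hN i) h2, hc⟩
  have hsel : ∀ (F : K[X]) (l : ℕ), Nonempty (Selmer k F l ≃
      Run7.h886.PL.SelN F l (Run7.h286.PLC.AllPl k K)) := fun F l =>
    ⟨Quot.congr (Equiv.subtypeEquivRight fun c =>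
      ⟨fun h => ⟨h.cocycle, h.torsion, Run7.h886.PL.loc_iff.2 ⟨h.finite, h.infinite⟩⟩,
        fun h => ⟨h.coc, h.tor, (Run7.h886.PL.loc_iff.1 h.loc).1,
          (Run7.h886.PL.loc_iff.1 h.loc).2⟩⟩) fun c c' => Iff.rfl⟩
  have hsel2 : ∀ F : K[X], Nat.card (Selmer k F 2) =
      Nat.card (Run7.h286.PLC.SelH F (Run7.h286.PLC.AllPl k K)) := fun F => by
    obtain ⟨e⟩ := hsel F 2
    rw [Nat.card_congr e, Run7.h886.PL.card_selN]
  have hone : ∀ D, IsTwist g f D → ∀ i,
      Nat.card (Selmer k (twist K (f i) D) 2) = 2 ^ Run7.h286.PL.rkJ K ((f i).scaleRoots D) ∧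
      (∀ P : J (twist K (f i) D) K, P ^ 2 = 1 → P = 1) ∧
      (Run7.h286.PL.rkJ K ((f i).scaleRoots D) = 0 → Zero k (twist K (f i) D)) := by
    intro D hD i
    have hDD : D ∈ Twists g f D.leadingCoeff D.natDegree := ⟨rfl, rfl, hD.squarefree, hD.coprime⟩
    obtain ⟨t1, t2, t3, t4⟩ := Run7.h886.PL.one K hF
      (leadingCoeff_ne_zero.2 hD.squarefree.ne_zero) hDD i
    exact ⟨(hsel2 _).trans t1, t2, fun h0 => ⟨(t4 h0).1, (t4 h0).2.1, (t4 h0).2.2⟩⟩
  have hdim : ∀ D, IsTwist g f D → ∀ i,
      dims K f D i = Run7.h286.PL.rkJ K ((f i).scaleRoots D) := by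
    intro D hD i
    unfold dims dim curves
    rw [(hone D hD i).1, Nat.log_pow (by norm_num)]
  have hsize : ∀ u : k, u ≠ 0 → ∃ c : ℝ, 0 < c ∧ ∀ᶠ m : ℕ in atTop,
      c * (Nat.card k : ℝ) ^ m ≤ ((Twists g f u m).ncard : ℝ) := fun u hu =>
    Run7.h886.PL.size_one hF hu
  have hq : (0 : ℝ) < Nat.card k := by exact_mod_cast Nat.card_pos
  have hpos : ∀ u : kˣ, ∀ᶠ m : ℕ in atTop, (1 : ℝ) ≤ ((Twists g f (u : k) m).ncard : ℝ) := by
    intro u
    obtain ⟨c, hc0, hc1⟩ := hsize u u.ne_zero
    filter_upwards [hc1] with m hm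
    have h3 : (0 : ℝ) < ((Twists g f (u : k) m).ncard : ℝ) :=
      lt_of_lt_of_le (mul_pos hc0 (pow_pos hq _)) hm
    have h4 : 0 < (Twists g f (u : k) m).ncard := by exact_mod_cast h3
    exact_mod_cast h4
  have hmeans : HasMeans K g f := by
    intro φ hφ
    unfold MeanTendsTo
    simp only [upTo_eq]
    refine Run7.h908.JP.Cum.cum_mean hpos fun u => ?_
    exact Run7.h886.PL.mean_of K hF u.ne_zero (dims K f) (fun m D hD i =>
      hdim D ⟨hD.2.2.1, hD.2.2.2⟩ i) φ hφ
  have hev : ∀ᶠ M : ℕ in atTop, (0 : ℝ) < ((UpTo g f M).ncard : ℝ) ∧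
      ((Twists g f 1 M).ncard : ℝ) ≤ ((UpTo g f M).ncard : ℝ) := by
    filter_upwards [hpos 1] with M hM
    have h3 : Twists g f 1 M ⊆ UpTo g f M := fun D hD =>
      ⟨⟨hD.2.2.1, hD.2.2.2⟩, hD.2.1.le⟩
    have h4 : ((Twists g f 1 M).ncard : ℝ) ≤ ((UpTo g f M).ncard : ℝ) := by
      exact_mod_cast Set.ncard_le_ncard h3 (upTo_fin M)
    have h5 : (1 : ℝ) ≤ ((Twists g f 1 M).ncard : ℝ) := by
      rw [← Units.val_one]
      exact hM
    exact ⟨by linarith, h4⟩
  have hlaw : ∀ d : Fin n → ℕ, HasProportion g f (fun D => dims K f D = d)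
      (∏ i, alpha (d i)) := by
    intro d
    have h := hmeans (fun x => if x = d then (1 : ℝ) else 0) ⟨1, 1, fun x => by
      split_ifs <;> simp⟩
    have h1 : ∑' x : Fin n → ℕ, (if x = d then (1 : ℝ) else 0) * ∏ i, alpha (x i) =
        ∏ i, alpha (d i) := by
      rw [tsum_eq_single d (fun x hx => by rw [if_neg hx, zero_mul]), if_pos rfl, one_mul]
    rw [h1] at h
    refine proportion_of ?_
    refine Tendsto.congr (fun M => ?_) h
    congr 1
    refine finsum_mem_congr rfl fun D _ => ?_
    by_cases hh : dims K f D = d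
    · rw [if_pos hh, if_pos hh]
    · rw [if_neg hh, if_neg hh]
  refine ⟨?_, fun D hD i => ?_, ?_, hmeans, hlaw, fun e => ?_, fun m => ?_⟩
  · obtain ⟨c, hc0, hc1⟩ := hsize 1 one_ne_zero
    refine ⟨c, hc0, ?_⟩
    filter_upwards [hc1, hev] with M h3 h4
    exact h3.trans h4.2
  · obtain ⟨e2⟩ := hsel (twist K (f i) D) 2
    have h5 := (hone D hD i).1
    have hd : dim k (twist K (f i) D) = Run7.h286.PL.rkJ K ((f i).scaleRoots D) := hdim D hD i
    have hfin2 : Finite (Run7.h886.PL.SelN (twist K (f i) D) 2 (Run7.h286.PLC.AllPl k K)) := by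
      refine Nat.finite_of_card_ne_zero ?_
      rw [← Nat.card_congr e2, h5]
      exact pow_ne_zero _ (by norm_num)
    have hgd : Pool.Agent.Y160.SE.Good 2 (-1 : K) (twist K (f i) D) :=
      Run7.h886.PL.good_tw K (hF.fm i) hD.squarefree.ne_zero
    show Bounded k (twist K (f i) D)
    refine ⟨(hone D hD i).2.1, by rw [hd]; exact h5, fun l => ?_, fun l => ?_⟩
    · obtain ⟨e⟩ := hsel (twist K (f i) D) (2 ^ l)
      obtain ⟨h6, h7⟩ := Run7.h886.PL.card_pow hgd (Run7.h286.PLC.AllPl k K) hfin2 l
      exact Finite.of_equiv _ e.symm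
    · obtain ⟨e⟩ := hsel (twist K (f i) D) (2 ^ l)
      obtain ⟨h6, h7⟩ := Run7.h886.PL.card_pow hgd (Run7.h286.PLC.AllPl k K) hfin2 l
      rw [Nat.card_congr e, hd]
      refine h7.trans (le_of_eq ?_)
      rw [← Nat.card_congr e2, h5, ← pow_mul, mul_comm]
  · have h3 := hlaw (fun _ => 0)
    have h4 : (0.2097 : ℝ) ^ n < ∏ _i : Fin n, alpha 0 := by
      rw [Finset.prod_const, Finset.card_univ, Fintype.card_fin]
      exact pow_lt_pow_left₀ alpha_zero (by norm_num) (by omega)
    filter_upwards [h3.eventually (lt_mem_nhds h4), hev] with M h5 h6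
    rw [lt_div_iff₀ h6.1] at h5
    refine h5.le.trans ?_
    have hsub : ({D ∈ UpTo g f M | dims K f D = fun _ => 0} : Set k[X]) ⊆
        {D ∈ UpTo g f M | ∀ i, Zero k (curves K f D i)} := fun D hD =>
      ⟨hD.1, fun i => (hone D hD.1.1 i).2.2 (by
        rw [← hdim D hD.1.1 i, hD.2])⟩
    exact_mod_cast Set.ncard_le_ncard hsub ((upTo_fin M).subset fun D hD => hD.1)
  · have h := hmeans (fun x => ∏ i, if (x i : ZMod 2) = e i then (1 : ℝ) else 0) ⟨1, 1, fun x => by
      rw [one_pow, one_mul, Finset.abs_prod]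
      refine Finset.prod_le_one (fun i _ => abs_nonneg _) fun i _ => ?_
      split_ifs <;> simp⟩
    rw [Run7.h908.JP.Cum.tsum_prod (fun i d => if (d : ZMod 2) = e i then (1 : ℝ) else 0)
      (fun i d => by split_ifs <;> simp) (fun i d => by split_ifs <;> simp),
      Finset.prod_congr rfl fun i _ => Run7.h908.JP.Cum.half (e i), Finset.prod_const,
      Finset.card_univ, Fintype.card_fin] at h
    refine proportion_of ?_
    refine Tendsto.congr (fun M => ?_) h
    congr 1
    refine finsum_mem_congr rfl fun D _ => ?_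
    by_cases hh : ∀ i, (dims K f D i : ZMod 2) = e i
    · rw [if_pos hh]
      exact Finset.prod_eq_one fun i _ => if_pos (hh i)
    · rw [if_neg hh]
      push Not at hh
      obtain ⟨i, hi⟩ := hh
      exact Finset.prod_eq_zero (Finset.mem_univ i) (if_neg hi)
  · have h := mean_lin (g := g) (f := f) (fun i D => ((dims K f D i : ℕ) : ℝ))
      (fun i => ((m i : ℕ) : ℝ)) (∑' d : ℕ, (d : ℝ) * alpha d) fun i => ?_
    · have e1 : (((∑ i, m i : ℕ) : ℝ) * ∑' d : ℕ, (d : ℝ) * alpha d) =
          (∑ i, ((m i : ℕ) : ℝ)) * ∑' d : ℕ, (d : ℝ) * alpha d := by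
        push_cast
        rfl
      rw [e1]
      refine Tendsto.congr (fun M => ?_) h
      congr 1
      refine finsum_mem_congr rfl fun D _ => ?_
      push_cast
      rfl
    · have h3 := hmeans (fun d => (d i : ℝ)) ⟨1, 2, fun d => by
        rw [one_mul, abs_of_nonneg (Nat.cast_nonneg _)]
        have h4 : d i ≤ ∑ i, d i := Finset.single_le_sum (f := d) (fun j _ => Nat.zero_le _)
          (Finset.mem_univ i)
        have h5 : d i ≤ 2 ^ (∑ i, d i) := h4.trans (Nat.lt_two_pow_self).le
        exact_mod_cast h5⟩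
      rw [Run7.h908.JP.Fib.tsum_coord i] at h3
      exact h3

end Pool.Agent.Results.MP_0b9e0b_ag.ProductsOfTwistedCurves
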