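import Pool.Agent.Run7.h142.CG.Bloch

/-!
# The conjecture of Beilinson and Bloch for constant varieties over function fields is decided by products
# of three curves, in codimension two, over the function field of one supersingular elliptic curve

The setting. Let `C j` be all smooth projective curves over the algebraic closure of the field with `p`
elements. The properties which are used are the following ones (`IsComplete`): the cohomology is
generated by the classes of algebraic cycles and by `H¹`, an algebraic class defines a nondegenerate
form on `H¹`, and each possible Newton function of weight one occurs in `H¹` of one of the `C j` (theorem
of Honda). One of the curves, `E = C e`, has a nonzero class in `H¹` with slope `1 / 2` at all places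
(`HasHalf`), for instance `E` is a supersingular elliptic curve. The cohomology has coefficients in a
field which contains the eigenvalues of Frobenius, for instance an algebraic closure of `ℚ_ℓ`.

Let `Z` be a smooth projective variety over a finite field and `k = F_q(C)` the function field of a curve
over it. The L-function of `H ^ (2 m - 1)` of the constant variety `X = Z × k` is the quotient of the
characteristic polynomial of Frobenius on `H ^ (2 m - 1) (Z) ⊗ H¹ (C)` and of factors which are not zero at
`s = m`; so its order at `s = m` is the multiplicity of the eigenvalue `q ^ m` on this space (`eigenDim`).
The cycles of codimension `m` on `X` which are homologically equivalent to zero are the restrictions of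
cycles on `Z × C`, and modulo homological equivalence and cycles in fibres they give the classes of
cycles in `H ^ (2 m - 1) (Z) ⊗ H¹ (C)` (`commonDim`). The formula `BlochFormula Φ Z C m` says that the two
dimensions are equal, for all sufficiently large `q`. For varieties dominated by products of curves the
dimension of the space of these classes is the one of `CH ^ m (X)_0 ⊗ ℚ` if the Tate conjecture is true for
them, by the theorem of Kahn (rational and numerical equivalence agree for varieties of abelian type
over finite fields for which the Tate conjecture is true).

**Theorem.** *The following statements are equivalent.*
* *The formula holds in all codimensions `m ≥ 1` for all varieties `Y` which are dominated by products of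
  any number of the curves `C j` (for instance all abelian varieties and all Fermat hypersurfaces),
  considered as constant varieties over the function fields of all curves `C j`.*
* *The formula holds in codimension two for the products of three curves, as constant varieties over the
  function field of the one curve `E`.*
* *The Tate conjecture holds, with semisimplicity, in all codimensions for all varieties which are
  dominated by products of the curves `C j`.*
* *(if Frobenius is semisimple on `H¹ (C j)`, a theorem of Weil) The Tate conjecture holds in codimension
  two for the products of three curves and `E`.*

So all codimensions, all constant varieties of this kind, and all function fields are reduced to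
codimension two, threefolds which are products of three curves, and one function field. (In codimension
one the formula is a theorem of Tate for these varieties, and one could expect that the number of
factors is not bounded, and that all function fields are needed.)

The proof. The class of a word `(f, g, h, 0)` of four letters in `H¹` of `C_a`, `C_b`, `C_c` and `E` belongs
to the Künneth component `H³ (C_a × C_b × C_c) ⊗ H¹ (E)`; if the sum of the slope functions is zero it is an
eigenvector for a power of `q ^ 2`, so it is algebraic by the formula for these threefolds
(`words_of_bloch`, `bloch_iff`). All Tate classes are generated by these words: a product of Weil numbers
is determined up to roots of unity by its weight and slopes; the relations between slope functions of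
weight one are generated by the relations with four letters, and these by the relations
`f + g = u` with a letter `0` (`alg_four_of_three`, as in `MP_ee618e_ag.ThreeFactorsOnePrime`). Conversely the
product of a dominated variety and a curve is dominated (`dominated_prod`, by `push_times`).

Earlier work: Tate, Jannsen (the conjecture follows from the conjectures of Tate and Beilinson over finite
fields), Soulé, Kahn (varieties of abelian type), Honda, Milne (Motives over finite fields), Hazama
(On the general Hodge conjecture for abelian varieties of CM-type: codimension two). The reduction to
products of three curves over one function field is new as far as I know.
-/

set_option autoImplicit false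

open CategoryTheory AlgebraicGeometry

universe u v w

namespace Pool.Agent.Results.MP_0b9e0b_ag.ThreeCurvesOverOneField

open Pool.Agent.H914 Pool.Agent.W534 Pool.Agent.Run7.h142.GT Pool.Agent.Run7.h142.CE
  Pool.Agent.Run7.h142.CF Pool.Agent.Run7.h142.CG VarClass Obj WeilCohomology

/-- **The formula of Beilinson and Bloch for all constant varieties dominated by products of the `C j`,
over the function fields of all `C j` and in all codimensions, is equivalent to the formula in codimension
two for the products of three of the `C j` over the function field of `E = C e`, and to the Tate
conjecture for all varieties dominated by products of the `C j`.** -/
theorem result {k : Type u} [Field k] {𝒱 : VarClass k} {ops : CycleOps 𝒱}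
    (W : WeilCohomology.{u, v} ops) (p : ℕ) [Fact p.Prime] (Φ : FrobSystem W p) (K : Type)
    [Field K] [CharZero K] [Algebra.IsAlgebraic ℚ K] (σ : K →+* W.K) (c : K →+* K)
    (Λ : AddSubgroup ℝ) (hΛ : (1 / 2 : ℝ) ∈ Λ) {J : Type w} (C : J → 𝒱.Obj)
    (hC : IsComplete Φ σ c Λ C) (e : J) (he : HasHalf Φ σ (C e)) :
    (BlochForAll Φ C ↔ BlochForThree Φ C (C e)) ∧
    (BlochForAll Φ C ↔ TateForAll Φ C) ∧
    ((∀ j, IsSemisimple Φ 1 (C j)) →
      (BlochForAll Φ C ↔ ForThree C (C e) fun Z => TateAt Φ Z 1 2)) :=
  ⟨bloch_iff_three hΛ hC he, bloch_iff_tate hΛ hC he, bloch_iff_plain hΛ hC he⟩

end Pool.Agent.Results.MP_0b9e0b_ag.ThreeCurvesOverOneField
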