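import Mathlib
import Pool.Agent.Run7.h301.TW.Main
import Pool.Agent.Run7.h301.TW.Examples
import Pool.Agent.Y1.BB.Main

/-!
# The formula of Beilinson and Bloch for constant abelian varieties whose Weil numbers lie in a forest of
CM fields

Let `F v`, `v : V`, be finitely many CM fields with inclusions `F u → F v` for `u ≤ v`, where `V` is a
finite partially ordered set in which the elements below any element form a chain. So `V` is a forest,
and the fields below a given field form a tower: for instance a tower `F 0 ⊂ F 1 ⊂ ... ⊂ F n`, several
towers, or several towers with a common lower part. Let `π i ∈ F (w i)`, `i ∈ I`, be finitely many Weil
numbers for `q = p ^ a`, possibly several in the same field, at any level. We assume: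

* The automorphisms of `ℂ` act on the complex embeddings of the fields as freely as the inclusions
  permit (`FreeForest`). Two embeddings `x` of `F v` and `y` of `F w` agree on `F u` if `u ≤ v`,
  `u ≤ w` and they have the same restriction to `F u` (`Agree`). If `x` and `y` agree on no field of
  the forest, and `x` and `conj y` neither, then some automorphism of `ℂ` fixes `x` and maps `y` to
  `conj y`. If `x` agrees with `y` and with `y'` on the same fields, at least one, then some
  automorphism fixes `x` and maps `y` to `y'`.
* The norms are independent (`IndependentNorms`): for each `i₀` the slope deviations of the norms of
  all the `π i` to all the fields `F u` contained in `F (w i)` and in `F (w i₀)` are linearly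
  independent over `ℚ`, as functions of the embeddings of `F (w i₀)` in the algebraic closure of `ℚ_p`
  (`normDev`; for `F u = F (w i)` it is the slope deviation `2 ord_p (τ (π i)) - a` of `π i`, whose
  values are `a (2 λ - 1)` for the slopes `λ`). Nothing else is assumed on the Newton polygons.

If `x` and `y` agree on a CM field `F u` then no automorphism fixes `x` and maps `y` to `conj y`: the
pair `(x, y)` is rigid. The result `SeveralWeilNumbers` (helper142) of this run treats the case without
rigid pairs, the forests without inclusions, and the fields with rigid pairs are left open there. Every
CM field that contains a smaller CM field has rigid pairs, for instance the fields `k R` with `k`
imaginary quadratic and `R` totally real, and in this case there are abelian varieties with exotic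
classes (the Weil classes). In the theorem the norms to the smaller fields decide: for `k R` with the
Galois group of `R` doubly transitive the condition on one Weil number `π` is that its slopes are not
constant on the embeddings over an embedding of `k` and that their mean value is not `a / 2`; for
ordinary abelian varieties this says that the signature `(r, s)` over `k` satisfies `r s ≠ 0` and
`r ≠ s`.

Let `f i` be monic polynomials whose complex roots are conjugates of `π i` (`IsPolyOf`), for instance
the characteristic polynomials of Frobenius of the abelian varieties over the field with `q` elements in
the isogeny classes of the `π i`. Let `A` be an abelian variety over the field with `q` elements which is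
isogenous to a product of powers of abelian varieties with characteristic polynomials `f i`. Let `F` be
the function field of a smooth projective geometrically connected curve `C` over the field with `q ^ s`
elements, `s > 0` arbitrary. Suppose that each eigenvalue `ρ` of Frobenius on `H ^ 1 (C)` is of one of
the following kinds (`CurveEigen`):

* `ρ` is the product of a root of unity and of the `s`-th power of a root of one of the `f i` (for
  instance if `ρ` comes from a factor of the Jacobian of `C` which over a finite extension is isogenous
  to a factor of `A`);
* `ρ` is unrelated to the fields `F (w i)` (`UnrelatedTo`): a function `n` on the complex embeddings of
  `F (w i)` with `n (conj φ) = - n φ` which is invariant under all automorphisms of `ℂ` that fix a power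
  of `ρ` is zero. This is so for instance if a power of `ρ` lies in a field linearly disjoint from the
  normal closures of the `F (w i)`.

Let `X = A_F`. The first part of the theorem says: for all `i = k + 1 ≥ 1` **the order of vanishing of
`L (H ^ (2 i - 1) (X), s)` at `s = i` is equal to the dimension of the space `algebraicClasses` of the
classes in `H ^ (2 i - 1) (A) ⊗ H ^ 1 (C)` which are linear combinations of products of `i - 1` classes
of divisors on `A` and a correspondence between `A` and `C`** (`BeilinsonBlochOver`). As in the
starting results of this folder the theorems of Tate and of Kahn imply that the dimension of
`algebraicClasses` is that of `CH ^ i (X)_0`: the formula of Beilinson and Bloch holds. The rank can be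
positive, for instance if `C` is a curve on `A` that generates `A`. Here `V` is the first cohomology of
`A` with the Frobenius endomorphism `F` of the field with `q` elements, `W` the first cohomology of `C`
with its Frobenius endomorphism `G`, `P` is the set of closed points of `C`, that is, of places of the
function field.

In the second part (`HoldsForMostForestTypes`) the Weil numbers have prescribed slope types. We fix an
isomorphism `ν` of the algebraic closure of `ℚ_p` with `ℂ`. A CM type `Φ` of a CM field `E`, a function
`M` with nonzero integral values on the complex embeddings of `E` and a real number `c ≠ 0` prescribe
the slopes `(a + c M) / 2` (at the embeddings in `Φ`) and `(a - c M) / 2` (outside of `Φ`) of a Weil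
number for `p ^ a` in `E` (`HasType`; the case `M = 1`, `c = a` is the case of ordinary abelian
varieties, `M ≠ 0` says that `a / 2` is not a slope). For given `w 0`, ..., `w (r - 1)` and given
weights `M i` on `F (w i)` **the proportion of the families of CM types `Φ i` of the fields `F (w i)`
for which the conclusion of the first part is false for some Weil numbers with these slope types is at
most** `exceptional F w`, the sum over all `i` and all the fields `F u ⊆ F (w i)` of `b (t) ^ (d - j)`,
where `b (t)` is the largest probability `binomial (t, t / 2) / 2 ^ t` of a value of a sum of `t`
independent signs, `t = [F (w i) : F u]`, `2 d` is the difference of the degrees of `F u` and of the
largest field of the forest below `F u` (or the degree of `F u`, if there is none), and `j` is the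
number of the `i' < i` with `F u ⊆ F (w i')`. So almost all families are good if the steps of the towers
are large, or (for the lowest step) if `t` is large and there is one Weil number above it: for one
ordinary Weil number in `k R` of degree `2 g` the bound is `binomial (g, g / 2) / 2 ^ g + 2 ^ (1 - g)`.

The third part (`ForestExamples`) gives examples of free forests with rigid pairs: the CM fields `E`
with an imaginary quadratic subfield for which the automorphisms of `ℂ` act doubly transitively on the
embeddings of the maximal real subfield `K`. Families of CM fields without rigid pairs are free forests
without inclusions (`freeForest_of_noRigidPairs` in the file TW.Examples), so the first part of the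
theorem contains the first part of `SeveralWeilNumbers`.

The condition on the norms is the best possible (`exactInForests` in the file TW.Exact, not used here):
if the inclusions are proper then for Weil numbers that are algebraic integers the independence of the
norms is equivalent to the maximality of the angle rank, that is, all multiplicative relations between
the conjugates of the `π i` and `p` are trivial. If the norms are dependent then there are exotic
classes on some product of the abelian varieties.

The proof. A multiplicative relation gives a function `c` on the pairs `(i, y)`, `y` an embedding of
`F (w i)`, with `c (i, conj y) = - c (i, y)` and `∑ c (i, y) D i (σ y) = 0` for all automorphisms `σ`,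
where `D i` is the slope deviation of `π i`. If `c (i₀, x) ≠ 0` then we take the mean value of the
translates of `c` under the automorphisms (of a finite Galois group) that fix `x`. It is not zero at
`(i₀, x)`. It is zero at `(i, y)` if `x` agrees neither with `y` nor with `conj y` on any field, and
otherwise it depends only on the fields on which `x` and `y` (or `conj y`) agree. These fields are the
fields below some field, so the mean value is a linear combination of the characteristic functions of
the sets of the `y` that agree with `x` on `F u`, made odd, and the relation becomes a linear relation
between the slope deviations of the norms to the fields `F u`. So the angle rank is maximal
(`MaximalAngleRank`). If there is a number `ρ` in the relation then we compare the relation with its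
images under the automorphisms which fix a power of `ρ` (starting files, Y1.CT). For the second part: if the norms are dependent then for some `u` and `i` the
norm to `F u` of the signed weight function of `Φ i` is in the sum of the span of the norms of those
with smaller index and of the space of the odd functions that come from smaller fields. A subspace of
dimension `d` of the functions on `h` points contains a vector of independent sums of `t` signs with
nonzero weights at most with the probability `b (t) ^ (h - d)`, by the Littlewood-Offord theorem of
Erdős.
-/

set_option autoImplicit false

namespace Pool.Agent.Results.MP_0b9e0b_ag.WeilNumberForests

open Pool.Agent.Y1.CT Pool.Agent.Y1.BB Pool.Agent.Run7.h301.TW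

/-- **The formula of Beilinson and Bloch holds, in all codimensions, for the constant abelian
varieties whose Weil numbers lie in a free forest of CM fields and have independent norms.** -/
theorem result :
    HoldsInForests (fun I K _ => BeilinsonBlochOver (I := I) K) ∧
    HoldsForMostForestTypes (fun I K _ => BeilinsonBlochOver (I := I) K) ∧ ForestExamples := by
  refine ⟨holdsInForests ?_, holdsForMostForestTypes ?_, forestExamples⟩
  · intro I K _ q f hq hw hR
    exact formula_of_noRel hq hw hR
  · intro I K _ q f hq hw hR
    exact formula_of_noRel hq hw hR

end Pool.Agent.Results.MP_0b9e0b_ag.WeilNumberForests
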